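import Pool.Agent.H48.THU.Thu

/-!
# THP: `r u ^ g + s w ^ g = n`, one solution in every class
-/

set_option autoImplicit false

namespace Pool.THU

open Finset

/-- two solutions on the curve `A p ^ g + B q ^ g = A + B`: tangent line at `(1, 1)` -/
theorem tang (g : ℕ) (hg : 2 ≤ g) (A B p q n : ℝ) (hA : 0 < A) (hB : 0 < B) (hp : 0 < p) (hq : 0 < q)
    (hn : A + B = n) (h : A * p ^ g + B * q ^ g = n) (hL : n ≤ A * p + B * q) : p = 1 ∧ q = 1 := by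
  have hg1 : (1 : ℝ) < (g : ℝ) := by exact_mod_cast (by omega : 1 < g)
  have hb : ∀ x : ℝ, 0 < x → 1 + (g : ℝ) * (x - 1) ≤ x ^ g ∧
      (x ≠ 1 → 1 + (g : ℝ) * (x - 1) < x ^ g) := by
    intro x hx
    have h2 : x ≠ 1 → 1 + (g : ℝ) * (x - 1) < x ^ g := by
      intro hne
      have h3 := one_add_mul_self_lt_rpow_one_add (s := x - 1) (by linarith) (sub_ne_zero.mpr hne)
        (p := (g : ℝ)) hg1
      have h4 : (1 + (x - 1)) = x := by ring
      rwa [h4, Real.rpow_natCast] at h3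
    refine ⟨?_, h2⟩
    by_cases hx1 : x = 1
    · rw [hx1]; simp
    · exact (h2 hx1).le
  obtain ⟨hp1, hp2⟩ := hb p hp
  obtain ⟨hq1, hq2⟩ := hb q hq
  have hsum : 0 ≤ (g : ℝ) * (A * (p - 1) + B * (q - 1)) := by
    refine mul_nonneg (by linarith) ?_
    nlinarith
  by_contra hcon
  have hor : p ≠ 1 ∨ q ≠ 1 := by
    by_contra h5
    push Not at h5
    exact hcon h5
  have hA1 : A * (1 + (g : ℝ) * (p - 1)) ≤ A * p ^ g := mul_le_mul_of_nonneg_left hp1 hA.le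
  have hB1 : B * (1 + (g : ℝ) * (q - 1)) ≤ B * q ^ g := mul_le_mul_of_nonneg_left hq1 hB.le
  rcases hor with h5 | h5
  · have h6 : A * (1 + (g : ℝ) * (p - 1)) < A * p ^ g := mul_lt_mul_of_pos_left (hp2 h5) hA
    nlinarith
  · have h6 : B * (1 + (g : ℝ) * (q - 1)) < B * q ^ g := mul_lt_mul_of_pos_left (hq2 h5) hB
    nlinarith

/-- the solutions with plus sign, prime to `n` -/
def SolP (g H r s n : ℕ) : Finset (ℕ × ℕ) :=
  (Icc 1 H ×ˢ Icc 1 H).filter (fun z => r * z.1 ^ g + s * z.2 ^ g = n ∧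
    z.1.Coprime n ∧ z.2.Coprime n)

/-- the number of solutions with plus sign -/
theorem countP (g : ℕ) (hg : 2 ≤ g) (H r s n : ℕ) (hn : 0 < n) (hr : 0 < r) (hs : 0 < s)
    (hrn : r.Coprime n) (hsn : s.Coprime n) :
    (SolP g H r s n).card ≤ (2 * g) ^ n.primeFactors.card := by
  classical
  have hNZ : NeZero n := ⟨hn.ne'⟩
  have hmem : ∀ z ∈ SolP g H r s n, (1 ≤ z.1 ∧ 1 ≤ z.2) ∧ r * z.1 ^ g + s * z.2 ^ g = n ∧
      z.1.Coprime n ∧ z.2.Coprime n := by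
    intro z hz
    obtain ⟨h1, h2⟩ := mem_filter.mp hz
    obtain ⟨h3, h4⟩ := mem_product.mp h1
    exact ⟨⟨(mem_Icc.mp h3).1, (mem_Icc.mp h4).1⟩, h2⟩
  obtain ⟨f, hf⟩ : ∃ f : ℕ × ℕ → ℕ, f = fun z => ((z.1 : ZMod n) * (z.2 : ZMod n)⁻¹).val := ⟨_, rfl⟩
  have hfz : ∀ z ∈ SolP g H r s n, f z < n ∧ (z.1 : ZMod n) = (f z : ZMod n) * (z.2 : ZMod n) := by
    intro z hz
    obtain ⟨-, -, h3, h4⟩ := hmem z hz
    rw [hf]
    refine ⟨ZMod.val_lt _, ?_⟩
    have h1 : (z.2 : ZMod n)⁻¹ * (z.2 : ZMod n) = 1 := by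
      rw [mul_comm]; exact ZMod.coe_mul_inv_eq_one z.2 h4
    show (z.1 : ZMod n) = ((((z.1 : ZMod n) * (z.2 : ZMod n)⁻¹).val : ℕ) : ZMod n) * (z.2 : ZMod n)
    rw [ZMod.natCast_zmod_val, mul_assoc, h1, mul_one]
  -- the roots
  have hroot : ∀ z ∈ SolP g H r s n, (r : ZMod n) * (f z : ZMod n) ^ g = -(s : ZMod n) := by
    intro z hz
    obtain ⟨-, h2, h3, h4⟩ := hmem z hz
    obtain ⟨-, h5⟩ := hfz z hz
    have h6 : ((r * z.1 ^ g + s * z.2 ^ g : ℕ) : ZMod n) = 0 := by rw [h2]; exact ZMod.natCast_self n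
    push_cast at h6
    rw [h5, mul_pow] at h6
    have hu : IsUnit ((z.2 : ZMod n) ^ g) := ((ZMod.isUnit_iff_coprime _ _).mpr h4).pow g
    have h7 : ((r : ZMod n) * (f z : ZMod n) ^ g + s) * (z.2 : ZMod n) ^ g = 0 := by
      rw [← h6]; ring
    have h8 := (hu.mul_left_eq_zero).mp h7
    exact eq_neg_of_add_eq_zero_left h8
  -- injectivity
  have hinj : Set.InjOn f (SolP g H r s n : Set (ℕ × ℕ)) := by
    intro z hz z' hz' hzz
    have hz := Finset.mem_coe.mp hz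
    have hz' := Finset.mem_coe.mp hz'
    obtain ⟨⟨a1, a2⟩, b1, c1, d1⟩ := hmem z hz
    obtain ⟨⟨a3, a4⟩, b2, c2, d2⟩ := hmem z' hz'
    obtain ⟨-, e1⟩ := hfz z hz
    obtain ⟨-, e2⟩ := hfz z' hz'
    obtain ⟨k, rfl⟩ : ∃ k, g = k + 1 := ⟨g - 1, by omega⟩
    -- `n ∣ r v ^ (g - 1) u + s x ^ (g - 1) w`
    have hdvd : n ∣ r * z'.1 ^ k * z.1 + s * z'.2 ^ k * z.2 := by
      refine (ZMod.natCast_eq_zero_iff _ _).mp ?_
      push_cast
      have h5 := hroot z hz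
      rw [e1, e2, ← hzz]
      have h6 : (r : ZMod n) * ((f z : ZMod n) * (z'.2 : ZMod n)) ^ k *
          ((f z : ZMod n) * (z.2 : ZMod n)) + (s : ZMod n) * (z'.2 : ZMod n) ^ k * (z.2 : ZMod n) =
          ((r : ZMod n) * (f z : ZMod n) ^ (k + 1) + s) * ((z'.2 : ZMod n) ^ k * (z.2 : ZMod n)) := by
        ring
      rw [h6, h5]
      ring
    have hle : n ≤ r * z'.1 ^ k * z.1 + s * z'.2 ^ k * z.2 := by
      refine Nat.le_of_dvd ?_ hdvd
      positivity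
    have hv : (0 : ℝ) < z'.1 := by exact_mod_cast a3
    have hx : (0 : ℝ) < z'.2 := by exact_mod_cast a4
    have hu : (0 : ℝ) < z.1 := by exact_mod_cast a1
    have hw : (0 : ℝ) < z.2 := by exact_mod_cast a2
    have hr' : (0 : ℝ) < r := by exact_mod_cast hr
    have hs' : (0 : ℝ) < s := by exact_mod_cast hs
    have b1' : (r : ℝ) * (z.1 : ℝ) ^ (k + 1) + s * (z.2 : ℝ) ^ (k + 1) = n := by exact_mod_cast b1
    have b2' : (r : ℝ) * (z'.1 : ℝ) ^ (k + 1) + s * (z'.2 : ℝ) ^ (k + 1) = n := by exact_mod_cast b2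
    have hle' : (n : ℝ) ≤ r * (z'.1 : ℝ) ^ k * z.1 + s * (z'.2 : ℝ) ^ k * z.2 := by exact_mod_cast hle
    have h9 := tang (k + 1) hg ((r : ℝ) * (z'.1 : ℝ) ^ (k + 1)) ((s : ℝ) * (z'.2 : ℝ) ^ (k + 1))
      ((z.1 : ℝ) / z'.1) ((z.2 : ℝ) / z'.2) n (by positivity) (by positivity) (by positivity)
      (by positivity) b2' ?_ ?_
    · obtain ⟨h10, h11⟩ := h9
      rw [div_eq_one_iff_eq hv.ne'] at h10
      rw [div_eq_one_iff_eq hx.ne'] at h11
      exact Prod.ext (by exact_mod_cast h10) (by exact_mod_cast h11)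
    · have e1 : ∀ a x y : ℝ, 0 < y → a * y ^ (k + 1) * (x / y) ^ (k + 1) = a * x ^ (k + 1) := by
        intro a x y hy
        rw [mul_assoc, ← mul_pow, mul_div_cancel₀ _ hy.ne']
      rw [← b1', e1 _ _ _ hv, e1 _ _ _ hx]
    · have e1 : ∀ a x y : ℝ, 0 < y → a * y ^ (k + 1) * (x / y) = a * y ^ k * x := by
        intro a x y hy
        rw [pow_succ, mul_assoc, mul_assoc, mul_div_cancel₀ _ hy.ne', mul_assoc]
      refine hle'.trans (le_of_eq ?_)
      rw [e1 _ _ _ hv, e1 _ _ _ hx]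
  rw [← Finset.card_image_of_injOn hinj]
  have hR := Pool.MED.rtn_thm Pool.MED.rts_thm n g (n - 1) ((SolP g H r s n).image f) hn
    (by omega) ?_ ?_
  · have h4 : (n - 1) / n = 0 := Nat.div_eq_of_lt (by omega)
    rw [h4, zero_add, mul_one] at hR
    exact hR
  · intro x hx
    obtain ⟨z, hz, rfl⟩ := Finset.mem_image.mp hx
    obtain ⟨h5, -⟩ := hfz z hz
    refine ⟨?_, by omega⟩
    have h9 : IsUnit ((f z : ZMod n) ^ g) := by
      have h10 : IsUnit ((r : ZMod n) * (f z : ZMod n) ^ g) := by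
        rw [hroot z hz]; exact ((ZMod.isUnit_iff_coprime _ _).mpr hsn).neg
      exact isUnit_of_mul_isUnit_right h10
    exact (ZMod.isUnit_iff_coprime _ _).mp ((isUnit_pow_iff (by omega)).mp h9)
  · intro x hx y hy
    obtain ⟨z, hz, rfl⟩ := Finset.mem_image.mp hx
    obtain ⟨z', hz', rfl⟩ := Finset.mem_image.mp hy
    refine (ZMod.natCast_eq_natCast_iff _ _ _).mp ?_
    push_cast
    exact ((ZMod.isUnit_iff_coprime _ _).mpr hrn).mul_left_cancel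
      ((hroot z hz).trans (hroot z' hz').symm)

/-- THP: the equation `r u ^ g + s w ^ g = n` has at most `C n ^ ε` solutions prime to `n` -/
theorem thp (g : ℕ) (hg : 2 ≤ g) (ε : ℝ) (hε : 0 < ε) : ∃ C : ℝ, 1 ≤ C ∧
    ∀ (H r s n : ℕ), 0 < n → 0 < r → 0 < s → r.Coprime n → s.Coprime n →
    ((SolP g H r s n).card : ℝ) ≤ C * (n : ℝ) ^ ε := by
  obtain ⟨C2, hC2, hom⟩ := Pool.FEX.omb_thm (2 * g : ℝ) ε (by
    have : (2 : ℝ) ≤ g := by exact_mod_cast hg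
    linarith) hε
  refine ⟨C2, hC2, ?_⟩
  intro H r s n hn hr hs hrn hsn
  have h1 := hom n hn
  have h2 : (1 : ℝ) ≤ 2 * g := by
    have : (2 : ℝ) ≤ g := by exact_mod_cast hg
    linarith
  have h3 : ((SolP g H r s n).card : ℝ) ≤ ((2 * g : ℝ)) ^ n.primeFactors.card := by
    exact_mod_cast countP g hg H r s n hn hr hs hrn hsn
  exact h3.trans ((pow_le_pow_right₀ h2 (Nat.le_succ _)).trans h1)

end Pool.THU
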