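import Pool.Agent.H48.THT.Thp
import Pool.Agent.H48.KST.KST

/-!
# THT: the tool of the equations `r u ^ d ± s w ^ d = n`
-/

set_option autoImplicit false

namespace Pool.KST

open Finset Pool.Agent.H98.ABCR Pool.SHA Pool.RIC.H71R Pool.BL

/-- THT: one coordinate is fixed, the two others are `r u ^ d` and `s w ^ d` with fixed `r`, `s` -/
def S_THT : Prop := ∀ (J : ℕ) (κ ε : ℝ), 1 ≤ κ → 0 < ε → ∃ C : ℝ, 1 ≤ C ∧
  ∀ (X τ : ℝ) (F : Finset (ℕ × ℕ)) (i j k : Fin 3) (E E' : Finset ℕ) (d : ℕ) (p : Fin 3 → ℕ → ℝ),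
  1 ≤ X → 0 ≤ τ → i ≠ j → i ≠ k → j ≠ k → 2 ≤ d → d ≤ J → E ⊆ Icc 1 J → E' ⊆ Icc 1 J →
  (∀ e ∈ E, d ∣ e) → (∀ e ∈ E', d ∣ e) → (∀ l e, 0 ≤ p l e ∧ p l e ≤ 2) →
  (∀ v ∈ F, IsTri v ∧ hh v ≤ κ * Real.log X ∧ ∀ l, Prof J X τ (p l) (coord v l)) →
  (F.card : ℝ) ≤ C * X ^ (ε + 3 * τ + ∑ e ∈ Icc 1 J, p i e +
    (∑ e ∈ Icc 1 J, p j e - ∑ e ∈ E, p j e) + (∑ e ∈ Icc 1 J, p k e - ∑ e ∈ E', p k e))

/-- the equation with signs -/
theorem signed (J : ℕ) (ε : ℝ) (hε : 0 < ε) : ∃ C3 : ℝ, 1 ≤ C3 ∧ ∀ h ∈ Icc 2 J,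
    ∀ (H r s n : ℕ) (α β : ℤ), 1 ≤ H → 0 < r → r ≤ H → 0 < s → s ≤ H → 0 < n → n ≤ H →
    (α = 1 ∨ α = -1) → (β = 1 ∨ β = -1) → r.Coprime n → s.Coprime n →
    (((Icc 1 H ×ˢ Icc 1 H).filter (fun z : ℕ × ℕ =>
      (α * (r * (z.1 : ℤ) ^ h) + β * (s * (z.2 : ℤ) ^ h) = n) ∧ z.1.Coprime n ∧
        z.2.Coprime n)).card : ℝ) ≤ C3 * (H : ℝ) ^ ε := by
  classical
  have hex : ∀ h : ℕ, ∃ C : ℝ, 1 ≤ C ∧ (2 ≤ h → ∀ (H r s : ℕ) (m : ℤ), 1 ≤ H → 0 < r → r ≤ H →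
      0 < s → s ≤ H → m ≠ 0 →
      (((Icc 1 H ×ˢ Icc 1 H).filter
        (fun z : ℕ × ℕ => (r : ℤ) * (z.1 : ℤ) ^ h - s * (z.2 : ℤ) ^ h = m)).card : ℝ) ≤
      C * (H : ℝ) ^ ε) := by
    intro h
    by_cases h2 : 2 ≤ h
    · obtain ⟨C, hC, hc⟩ := Pool.THU.thu h h2 ε hε
      exact ⟨C, hC, fun _ => hc⟩
    · exact ⟨1, le_rfl, fun h3 => absurd h3 h2⟩
  have hex2 : ∀ h : ℕ, ∃ C : ℝ, 1 ≤ C ∧ (2 ≤ h → ∀ (H r s n : ℕ), 0 < n → 0 < r → 0 < s →
      r.Coprime n → s.Coprime n → ((Pool.THU.SolP h H r s n).card : ℝ) ≤ C * (n : ℝ) ^ ε) := by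
    intro h
    by_cases h2 : 2 ≤ h
    · obtain ⟨C, hC, hc⟩ := Pool.THU.thp h h2 ε hε
      exact ⟨C, hC, fun _ => hc⟩
    · exact ⟨1, le_rfl, fun h3 => absurd h3 h2⟩
  choose Cf hCf hcf using hex
  choose Df hDf hdf using hex2
  have hS1 : ∀ h ∈ Icc 2 J, Cf h ≤ 1 + ∑ h ∈ Icc 2 J, (Cf h + Df h) := by
    intro h hh
    have h1 : Cf h + Df h ≤ ∑ h ∈ Icc 2 J, (Cf h + Df h) :=
      Finset.single_le_sum (f := fun h => Cf h + Df h)
        (fun h _ => by have := hCf h; have := hDf h; linarith) hh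
    have := hDf h
    linarith
  have hS2 : ∀ h ∈ Icc 2 J, Df h ≤ 1 + ∑ h ∈ Icc 2 J, (Cf h + Df h) := by
    intro h hh
    have h1 : Cf h + Df h ≤ ∑ h ∈ Icc 2 J, (Cf h + Df h) :=
      Finset.single_le_sum (f := fun h => Cf h + Df h)
        (fun h _ => by have := hCf h; have := hDf h; linarith) hh
    have := hCf h
    linarith
  refine ⟨1 + ∑ h ∈ Icc 2 J, (Cf h + Df h), ?_, ?_⟩
  · have : 0 ≤ ∑ h ∈ Icc 2 J, (Cf h + Df h) :=
      Finset.sum_nonneg fun h _ => by have := hCf h; have := hDf h; linarith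
    linarith
  intro h hh H r s n α β hH hr hrH hs hsH hn hnH hα hβ hrn hsn
  have h2 := (mem_Icc.mp hh).1
  have hH1 : (1 : ℝ) ≤ H := by exact_mod_cast hH
  have hHε : 0 ≤ (H : ℝ) ^ ε := by positivity
  obtain ⟨G, hG⟩ : ∃ G, G = (Icc 1 H ×ˢ Icc 1 H).filter (fun z : ℕ × ℕ =>
      (α * (r * (z.1 : ℤ) ^ h) + β * (s * (z.2 : ℤ) ^ h) = n) ∧ z.1.Coprime n ∧
        z.2.Coprime n) := ⟨_, rfl⟩
  rw [← hG]
  rcases hα with rfl | rfl <;> rcases hβ with rfl | rfl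
  · have h3 : G ⊆ Pool.THU.SolP h H r s n := by
      intro z hz
      rw [hG, mem_filter] at hz
      refine mem_filter.mpr ⟨hz.1, ?_, hz.2.2⟩
      have h4 := hz.2.1
      rw [one_mul, one_mul] at h4
      exact_mod_cast h4
    have h4 := hdf h h2 H r s n hn hr hs hrn hsn
    have h5 : (G.card : ℝ) ≤ ((Pool.THU.SolP h H r s n).card : ℝ) := by
      exact_mod_cast card_le_card h3
    refine h5.trans (h4.trans ?_)
    refine mul_le_mul (hS2 h hh) ?_ (by positivity) ?_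
    · exact Real.rpow_le_rpow (by positivity) (by exact_mod_cast hnH) hε.le
    · have := hS2 h hh; have := hDf h; linarith
  · have h3 : G ⊆ (Icc 1 H ×ˢ Icc 1 H).filter
        (fun z : ℕ × ℕ => (r : ℤ) * (z.1 : ℤ) ^ h - s * (z.2 : ℤ) ^ h = (n : ℤ)) := by
      intro z hz
      rw [hG, mem_filter] at hz
      refine mem_filter.mpr ⟨hz.1, ?_⟩
      have h4 := hz.2.1
      linarith
    have h4 := hcf h h2 H r s n hH hr hrH hs hsH (by exact_mod_cast hn.ne')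
    have h5 : (G.card : ℝ) ≤ (((Icc 1 H ×ˢ Icc 1 H).filter
        (fun z : ℕ × ℕ => (r : ℤ) * (z.1 : ℤ) ^ h - s * (z.2 : ℤ) ^ h = (n : ℤ))).card : ℝ) := by
      exact_mod_cast card_le_card h3
    exact h5.trans (h4.trans (mul_le_mul_of_nonneg_right (hS1 h hh) hHε))
  · have h3 : G ⊆ (Icc 1 H ×ˢ Icc 1 H).filter
        (fun z : ℕ × ℕ => (r : ℤ) * (z.1 : ℤ) ^ h - s * (z.2 : ℤ) ^ h = -(n : ℤ)) := by
      intro z hz
      rw [hG, mem_filter] at hz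
      refine mem_filter.mpr ⟨hz.1, ?_⟩
      have h4 := hz.2.1
      linarith
    have h4 := hcf h h2 H r s (-(n : ℤ)) hH hr hrH hs hsH (by
      have : (n : ℤ) ≠ 0 := by exact_mod_cast hn.ne'
      exact neg_ne_zero.mpr this)
    have h5 : (G.card : ℝ) ≤ (((Icc 1 H ×ˢ Icc 1 H).filter
        (fun z : ℕ × ℕ => (r : ℤ) * (z.1 : ℤ) ^ h - s * (z.2 : ℤ) ^ h = -(n : ℤ))).card : ℝ) := by
      exact_mod_cast card_le_card h3
    exact h5.trans (h4.trans (mul_le_mul_of_nonneg_right (hS1 h hh) hHε))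
  · have h3 : G = ∅ := by
      refine Finset.eq_empty_of_forall_notMem fun z hz => ?_
      rw [hG, mem_filter] at hz
      have h4 := hz.2.1
      have h5 : (0 : ℤ) ≤ (r : ℤ) * (z.1 : ℤ) ^ h := by positivity
      have h6 : (0 : ℤ) ≤ (s : ℤ) * (z.2 : ℤ) ^ h := by positivity
      have h7 : (0 : ℤ) < n := by exact_mod_cast hn
      linarith
    rw [h3, card_empty, Nat.cast_zero]
    have := hS1 h hh
    have := hCf h
    have h8 : 0 ≤ 1 + ∑ h ∈ Icc 2 J, (Cf h + Df h) := by linarith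
    exact mul_nonneg h8 hHε

/-- THT -/
theorem tht_thm (hL : S_LAY) (hC : Pool.RIC.S_CNT) : S_THT := by
  classical
  intro J κ ε hκ hε
  obtain ⟨C1, hC1, hT⟩ := hC κ (ε / 8) (by linarith) (by linarith)
  obtain ⟨C3, hC3, hTh⟩ := signed J (ε / 8 / κ) (by positivity)
  refine ⟨C1 * C1 * C1 * C3, ?_, ?_⟩
  · exact one_le_mul_of_one_le_of_one_le (one_le_mul_of_one_le_of_one_le
      (one_le_mul_of_one_le_of_one_le hC1 hC1) hC1) hC3
  intro X τ F i j k E E' h p hX hτ hij hik hjk hh2 hhJ hE hE' hhE hhE' hp hF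
  have hX0 : (0 : ℝ) < X := by linarith
  obtain ⟨α, β, hα, hβ, hco, hinj⟩ := sgn3 i j k hij hik hjk
  have hsz : ∀ v ∈ F, ∀ l, (coord v l : ℝ) ≤ X ^ κ := fun v hv l =>
    CTL71.size hX (hF v hv).1 (hF v hv).2.1 l
  obtain ⟨H, hH⟩ : ∃ H, H = ⌊X ^ κ⌋₊ := ⟨_, rfl⟩
  have hHX : (H : ℝ) ≤ X ^ κ := by rw [hH]; exact Nat.floor_le (by positivity)
  have hH1 : 1 ≤ H := by
    rw [hH]; exact Nat.le_floor (by push_cast; exact Real.one_le_rpow hX (by linarith))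
  have hle : ∀ v ∈ F, ∀ l, coord v l ≤ H := fun v hv l => by
    rw [hH]; exact Nat.le_floor (hsz v hv l)
  -- decomposition of a coordinate
  have hdec : ∀ (l : Fin 3) (D : Finset ℕ), D ⊆ Icc 1 J → (∀ e ∈ D, h ∣ e) → ∀ v ∈ F,
      coord v l = kp J (Icc 1 J \ D) (coord v l) * (∏ e ∈ D, lay (coord v l) e ^ (e / h)) ^ h ∧
      0 < ∏ e ∈ D, lay (coord v l) e ^ (e / h) := by
    intro l D hD hhD v hv
    obtain ⟨T1, -, -⟩ := hF v hv
    obtain ⟨d1, d2, d3, d4⟩ := decomp (J := J) hL (coord_pos T1 l) hD (subset_refl _) hhD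
    refine ⟨?_, d3⟩
    rw [Finset.sdiff_self, Finset.prod_empty, mul_one] at d1
    exact d1
  -- the values of a divisor
  have hval : ∀ (l : Fin 3) (K : Finset ℕ), K ⊆ Icc 1 J →
      ((F.image (fun v => kp J K (coord v l))).card : ℝ) ≤
        C1 * X ^ (ε / 8 + τ + ∑ e ∈ K, p l e) := by
    intro l K hK
    have h0 : ((F.image (fun v => kp J K (coord v l))).card : ℝ) ≤
        C1 * X ^ (ε / 8) * X ^ (τ + ∑ e ∈ K, p l e) := by
      refine hT X _ _ hX (Real.one_le_rpow hX ?_) ?_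
      · exact add_nonneg hτ (Finset.sum_nonneg fun e _ => (hp l e).1)
      intro n hn
      obtain ⟨v, hv, rfl⟩ := Finset.mem_image.mp hn
      obtain ⟨T1, Hh, P⟩ := hF v hv
      have hpos := coord_pos T1 l
      obtain ⟨-, -, -, hd, -⟩ := hL J (coord v l) hpos
      obtain ⟨hd1, hd2⟩ := hd K hK
      have hle1 : kp J K (coord v l) ≤ coord v l := Nat.le_of_dvd hpos hd1
      refine ⟨Nat.pos_of_dvd_of_pos hd1 hpos, ?_, ?_⟩
      · exact le_trans (by exact_mod_cast hle1) (hsz v hv l)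
      · rw [hd2, Nat.cast_mul, Nat.cast_prod, Real.rpow_add hX0, Real.rpow_sum_of_pos hX0]
        refine mul_le_mul (P l).1 ?_ (Finset.prod_nonneg fun e _ => Nat.cast_nonneg _) (by positivity)
        exact Finset.prod_le_prod (fun e _ => Nat.cast_nonneg _) fun e he => (P l).2 e (hK he)
    refine h0.trans (le_of_eq ?_)
    rw [mul_assoc, ← Real.rpow_add hX0, add_assoc]
  -- the key
  obtain ⟨A, hA⟩ : ∃ A : Finset ℕ, A = F.image (fun v => kp J (Icc 1 J) (coord v i)) := ⟨_, rfl⟩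
  obtain ⟨B, hB⟩ : ∃ B : Finset ℕ, B = F.image (fun v => kp J (Icc 1 J \ E) (coord v j)) := ⟨_, rfl⟩
  obtain ⟨D, hD⟩ : ∃ D : Finset ℕ, D = F.image (fun v => kp J (Icc 1 J \ E') (coord v k)) := ⟨_, rfl⟩
  have hkpI : ∀ v ∈ F, kp J (Icc 1 J) (coord v i) = coord v i := by
    intro v hv
    obtain ⟨h1, -⟩ := hL J (coord v i) (coord_pos (hF v hv).1 i)
    exact h1
  have hAc := hval i (Icc 1 J) (subset_refl _)
  have hBc := hval j (Icc 1 J \ E) Finset.sdiff_subset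
  have hDc := hval k (Icc 1 J \ E') Finset.sdiff_subset
  rw [← hA] at hAc
  rw [← hB] at hBc
  rw [← hD] at hDc
  have hmaps : Set.MapsTo (fun v => (kp J (Icc 1 J) (coord v i), kp J (Icc 1 J \ E) (coord v j),
      kp J (Icc 1 J \ E') (coord v k))) (F : Set (ℕ × ℕ)) ((A ×ˢ B ×ˢ D : Finset _) : Set _) := by
    intro v hv
    have hv := Finset.mem_coe.1 hv
    refine Finset.mem_coe.2 (mem_product.2 ⟨?_, mem_product.2 ⟨?_, ?_⟩⟩)
    · rw [hA]; exact mem_image_of_mem (fun v => kp J (Icc 1 J) (coord v i)) hv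
    · rw [hB]; exact mem_image_of_mem (fun v => kp J (Icc 1 J \ E) (coord v j)) hv
    · rw [hD]; exact mem_image_of_mem (fun v => kp J (Icc 1 J \ E') (coord v k)) hv
  have hHε : (H : ℝ) ^ (ε / 8 / κ) ≤ X ^ (ε / 8) := by
    have hκ0 : κ ≠ 0 := by linarith
    calc (H : ℝ) ^ (ε / 8 / κ) ≤ (X ^ κ) ^ (ε / 8 / κ) :=
          Real.rpow_le_rpow (Nat.cast_nonneg _) hHX (by positivity)
      _ = X ^ (κ * (ε / 8 / κ)) := by rw [← Real.rpow_mul hX0.le]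
      _ = X ^ (ε / 8) := by rw [mul_div_cancel₀ _ hκ0]
  have hfib : ∀ y ∈ (A ×ˢ B ×ˢ D : Finset _), (((F.filter (fun v =>
      (kp J (Icc 1 J) (coord v i), kp J (Icc 1 J \ E) (coord v j),
      kp J (Icc 1 J \ E') (coord v k)) = y)).card : ℕ) : ℝ) ≤ C3 * X ^ (ε / 8) := by
    rintro ⟨n, r, s⟩ -
    by_cases hne : (F.filter (fun v => (kp J (Icc 1 J) (coord v i), kp J (Icc 1 J \ E) (coord v j),
      kp J (Icc 1 J \ E') (coord v k)) = (n, r, s))).Nonempty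
    swap
    · rw [Finset.not_nonempty_iff_eq_empty.1 hne, card_empty, Nat.cast_zero]
      positivity
    obtain ⟨v0, hv0⟩ := hne
    rw [mem_filter, Prod.mk.injEq, Prod.mk.injEq] at hv0
    obtain ⟨hv0, n0, r0, s0⟩ := hv0
    rw [hkpI v0 hv0] at n0
    have hrs : ∀ v ∈ F, coord v i = n → kp J (Icc 1 J \ E) (coord v j) = r →
        kp J (Icc 1 J \ E') (coord v k) = s →
        0 < n ∧ n ≤ H ∧ 0 < r ∧ r ≤ H ∧ 0 < s ∧ s ≤ H ∧ r.Coprime n ∧ s.Coprime n ∧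
        coord v j = r * (∏ e ∈ E, lay (coord v j) e ^ (e / h)) ^ h ∧
        coord v k = s * (∏ e ∈ E', lay (coord v k) e ^ (e / h)) ^ h ∧
        (1 ≤ (∏ e ∈ E, lay (coord v j) e ^ (e / h)) ∧
          (∏ e ∈ E, lay (coord v j) e ^ (e / h)) ≤ H) ∧
        (1 ≤ (∏ e ∈ E', lay (coord v k) e ^ (e / h)) ∧
          (∏ e ∈ E', lay (coord v k) e ^ (e / h)) ≤ H) ∧
        (∏ e ∈ E, lay (coord v j) e ^ (e / h)).Coprime n ∧
        (∏ e ∈ E', lay (coord v k) e ^ (e / h)).Coprime n := by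
      intro v hv h1 h2 h3
      obtain ⟨d1, d2⟩ := hdec j E hE hhE v hv
      obtain ⟨c1, c2⟩ := hdec k E' hE' hhE' v hv
      rw [h2] at d1
      rw [h3] at c1
      obtain ⟨T1, -, -⟩ := hF v hv
      have pj := coord_pos T1 j
      have pk := coord_pos T1 k
      have pi := coord_pos T1 i
      have hcj : (coord v j).Coprime (coord v i) ∧ (coord v k).Coprime (coord v i) := by
        have hall : ∀ i j k : Fin 3, i ≠ j → i ≠ k → j ≠ k →
          (j = i + 1 ∧ k = i + 2) ∨ (j = i + 2 ∧ k = i + 1) := by decide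
        rcases hall i j k hij hik hjk with ⟨rfl, rfl⟩ | ⟨rfl, rfl⟩
        · exact ⟨(cop T1 i).1, (cop T1 i).2⟩
        · exact ⟨(cop T1 i).2, (cop T1 i).1⟩
      rw [h1] at hcj pi
      obtain ⟨cj, ck⟩ := hcj
      obtain ⟨w1, hw1⟩ : ∃ w1, w1 = ∏ e ∈ E, lay (coord v j) e ^ (e / h) := ⟨_, rfl⟩
      obtain ⟨w2, hw2⟩ : ∃ w2, w2 = ∏ e ∈ E', lay (coord v k) e ^ (e / h) := ⟨_, rfl⟩
      rw [← hw1] at d1 d2 ⊢
      rw [← hw2] at c1 c2 ⊢
      have hr : 0 < r := Nat.pos_of_ne_zero fun h0 => by rw [h0, zero_mul] at d1; omega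
      have hs : 0 < s := Nat.pos_of_ne_zero fun h0 => by rw [h0, zero_mul] at c1; omega
      have hrd : r ∣ coord v j := by rw [d1]; exact Nat.dvd_mul_right _ _
      have hsd : s ∣ coord v k := by rw [c1]; exact Nat.dvd_mul_right _ _
      have hw1d : w1 ∣ coord v j := by
        rw [d1]; exact (dvd_pow_self _ (by omega)).trans (Nat.dvd_mul_left _ _)
      have hw2d : w2 ∣ coord v k := by
        rw [c1]; exact (dvd_pow_self _ (by omega)).trans (Nat.dvd_mul_left _ _)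
      have hj := hle v hv j
      have hk := hle v hv k
      have hi := hle v hv i
      rw [h1] at hi
      refine ⟨pi, hi, hr, (Nat.le_of_dvd pj hrd).trans hj, hs, (Nat.le_of_dvd pk hsd).trans hk,
        cj.coprime_dvd_left hrd, ck.coprime_dvd_left hsd, d1, c1,
        ⟨d2, (Nat.le_of_dvd pj hw1d).trans hj⟩, ⟨c2, (Nat.le_of_dvd pk hw2d).trans hk⟩,
        cj.coprime_dvd_left hw1d, ck.coprime_dvd_left hw2d⟩
    obtain ⟨n1, n2, r1, r2, s1, s2, rn, sn, -⟩ := hrs v0 hv0 n0 r0 s0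
    have hth := hTh h (mem_Icc.2 ⟨hh2, hhJ⟩) H r s n α β hH1 r1 r2 s1 s2 n1 n2 hα hβ rn sn
    refine le_trans ?_ (hth.trans (mul_le_mul_of_nonneg_left hHε (by linarith)))
    refine Nat.cast_le.mpr (Finset.card_le_card_of_injOn
      (fun v => (∏ e ∈ E, lay (coord v j) e ^ (e / h), ∏ e ∈ E', lay (coord v k) e ^ (e / h))) ?_ ?_)
    · intro v hv
      have hv := Finset.mem_coe.1 hv
      rw [mem_filter, Prod.mk.injEq, Prod.mk.injEq] at hv
      obtain ⟨hv, n3, r3, s3⟩ := hv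
      rw [hkpI v hv] at n3
      obtain ⟨-, -, -, -, -, -, -, -, e1, e2, e3, e4, e5, e6⟩ := hrs v hv n3 r3 s3
      refine Finset.mem_coe.2 ?_
      rw [mem_filter, mem_product, mem_Icc, mem_Icc]
      refine ⟨⟨e3, e4⟩, ?_, e5, e6⟩
      have e7 := hco v
      rw [n3] at e7
      have e8 : (coord v j : ℤ) = (r : ℤ) * ((∏ e ∈ E, lay (coord v j) e ^ (e / h) : ℕ) : ℤ) ^ h := by
        exact_mod_cast e1
      have e9 : (coord v k : ℤ) = (s : ℤ) * ((∏ e ∈ E', lay (coord v k) e ^ (e / h) : ℕ) : ℤ) ^ h := by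
        exact_mod_cast e2
      rw [e7, e8, e9]
    · intro v hv v' hv' hvv
      have hv := Finset.mem_coe.1 hv
      have hv' := Finset.mem_coe.1 hv'
      rw [mem_filter, Prod.mk.injEq, Prod.mk.injEq] at hv hv'
      obtain ⟨hv, n3, r3, s3⟩ := hv
      obtain ⟨hv', n4, r4, s4⟩ := hv'
      rw [hkpI v hv] at n3
      rw [hkpI v' hv'] at n4
      obtain ⟨-, -, -, -, -, -, -, -, e1, e2, -⟩ := hrs v hv n3 r3 s3
      obtain ⟨-, -, -, -, -, -, -, -, f1, f2, -⟩ := hrs v' hv' n4 r4 s4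
      obtain ⟨g1, g2⟩ := Prod.mk.inj hvv
      refine hinj v v' ?_ ?_
      · rw [e1, f1, g1]
      · rw [e2, f2, g2]
  have hsum : (F.card : ℝ) ≤ (A ×ˢ B ×ˢ D : Finset _).card * (C3 * X ^ (ε / 8)) := by
    rw [Finset.card_eq_sum_card_fiberwise hmaps]
    push_cast
    calc _ ≤ ∑ _q ∈ (A ×ˢ B ×ˢ D : Finset _), (C3 * X ^ (ε / 8)) := Finset.sum_le_sum hfib
      _ = _ := by rw [Finset.sum_const, nsmul_eq_mul]
  refine hsum.trans ?_
  rw [card_product, card_product]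
  push_cast
  have hs1 : ∑ e ∈ Icc 1 J \ E, p j e = ∑ e ∈ Icc 1 J, p j e - ∑ e ∈ E, p j e := by
    have := Finset.sum_sdiff (f := fun e => p j e) hE
    linarith
  have hs2 : ∑ e ∈ Icc 1 J \ E', p k e = ∑ e ∈ Icc 1 J, p k e - ∑ e ∈ E', p k e := by
    have := Finset.sum_sdiff (f := fun e => p k e) hE'
    linarith
  rw [hs1] at hBc
  rw [hs2] at hDc
  have key : ∀ a b c d : ℝ, C1 * X ^ a * ((C1 * X ^ b) * (C1 * X ^ c)) * (C3 * X ^ d) =
      C1 * C1 * C1 * C3 * X ^ (a + b + c + d) := by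
    intro a b c d
    rw [Real.rpow_add hX0, Real.rpow_add hX0, Real.rpow_add hX0]
    ring
  calc (A.card : ℝ) * ((B.card : ℝ) * D.card) * (C3 * X ^ (ε / 8))
      ≤ (C1 * X ^ (ε / 8 + τ + ∑ e ∈ Icc 1 J, p i e)) *
        ((C1 * X ^ (ε / 8 + τ + (∑ e ∈ Icc 1 J, p j e - ∑ e ∈ E, p j e))) *
        (C1 * X ^ (ε / 8 + τ + (∑ e ∈ Icc 1 J, p k e - ∑ e ∈ E', p k e)))) * (C3 * X ^ (ε / 8)) := by
        refine mul_le_mul_of_nonneg_right ?_ (by positivity)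
        refine mul_le_mul hAc ?_ (by positivity) (by positivity)
        exact mul_le_mul hBc hDc (by positivity) (by positivity)
    _ ≤ _ := by
        rw [key]
        exact mul_le_mul_of_nonneg_left (Real.rpow_le_rpow_of_exponent_le hX (by linarith))
          (by positivity)

end Pool.KST
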